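import Mathlib

open Cardinal Set

namespace Pool.Agent.Results.MP_f81d0d_gt.Plastic

/-- the l1 distance on the plane -/
def d1 (u v : ℝ × ℝ) : ℝ := |u.1 - v.1| + |u.2 - v.2|

lemma const_of_small {φ : ℝ → ℝ} (hφ : Continuous φ) {E T : Set ℝ} (hE : #E < 𝔠) (hT : #T < 𝔠)
    (h : ∀ t ∉ E, φ t ∈ T) (s t : ℝ) : φ s = φ t := by
  have hsm : #(range φ) < 𝔠 := by
    have : range φ ⊆ T ∪ φ '' E := by
      rintro _ ⟨x, rfl⟩
      by_cases hx : x ∈ E
      · exact Or.inr ⟨x, hx, rfl⟩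
      · exact Or.inl (h x hx)
    refine (mk_le_mk_of_subset this).trans_lt ((mk_union_le _ _).trans_lt ?_)
    exact add_lt_of_lt aleph0_le_continuum hT (mk_image_le.trans_lt hE)
  have key : ∀ s t, ¬ φ s < φ t := by
    intro s t hst
    have := mk_le_mk_of_subset (intermediate_value_univ s t hφ)
    rw [mk_Icc_real hst] at this
    exact absurd hsm (not_lt.2 this)
  exact le_antisymm (not_lt.1 (key t s)) (not_lt.1 (key s t))

lemma exists_not_mem {K : Set ℝ} (hK : #K < 𝔠) : ∃ c, c ∉ K := by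
  by_contra h
  push Not at h
  have : K = Set.univ := eq_univ_of_forall h
  rw [this, mk_univ_real] at hK
  exact lt_irrefl _ hK

lemma affine {F : ℝ × ℝ → ℝ × ℝ} (hF : Continuous F) (K : Subfield ℝ) (hK : #K < 𝔠)
    (h : ∀ x : ℝ × ℝ, x.2 ∉ K → ∃ k : ℤ, (F x).1 - k * x.1 ∈ K ∧ (F x).2 - k * x.2 ∈ K) :
    ∃ (k : ℤ) (a b : ℝ), ∀ x, F x = (k * x.1 + a, k * x.2 + b) := by
  have hK' : #(K : Set ℝ) < 𝔠 := hK
  have he : #(∅ : Set ℝ) < 𝔠 := by simpa using continuum_pos
  have line : ∀ c ∉ K, ∃ k : ℤ, (F (0, c)).1 ∈ K ∧ (F (0, c)).2 - k * c ∈ K ∧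
      ∀ t, (F (t, c)).1 = k * t + (F (0, c)).1 ∧ (F (t, c)).2 = (F (0, c)).2 := by
    intro c hc
    have hT : #(range fun q : ℤ × K => (q.1 : ℝ) * c + q.2) < 𝔠 := by
      refine mk_range_le.trans_lt ?_
      rw [mk_prod]
      simp only [lift_id, mk_int]
      exact mul_lt_of_lt aleph0_le_continuum aleph0_lt_continuum hK
    have hv : ∀ t, (F (t, c)).2 = (F (0, c)).2 := fun t =>
      const_of_small (φ := fun t => (F (t, c)).2) (by fun_prop) he hT (fun t _ => by
        obtain ⟨k, -, h2⟩ := h (t, c) hc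
        exact ⟨(k, ⟨_, h2⟩), by simp⟩) t 0
    obtain ⟨k, h1, h2⟩ := h (0, c) hc
    have hu : ∀ t, (F (t, c)).1 - k * t ∈ K := by
      intro t
      obtain ⟨k', h1', h2'⟩ := h (t, c) hc
      by_cases hkk : k' = k
      · subst hkk; exact h1'
      · exfalso
        apply hc
        have h3 := K.sub_mem h2 h2'
        have h4 : ((k' - k : ℤ) : ℝ) ≠ 0 := by exact_mod_cast sub_ne_zero.2 hkk
        have h5 := K.div_mem h3 (intCast_mem K (k' - k))
        convert h5 using 1
        rw [hv t]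
        field_simp
        push_cast
        ring
    refine ⟨k, by simpa using h1, h2, fun t => ⟨?_, hv t⟩⟩
    have := const_of_small (φ := fun t => (F (t, c)).1 - k * t) (by fun_prop) he hK'
      (fun t _ => hu t) t 0
    simp only [mul_zero, sub_zero] at this
    linarith
  obtain ⟨c0, hc0⟩ := exists_not_mem hK'
  obtain ⟨k, -, -, hk⟩ := line c0 hc0
  have line2 : ∀ c ∉ K, (F (0, c)).1 ∈ K ∧ (F (0, c)).2 - k * c ∈ K ∧
      ∀ t, (F (t, c)).1 = k * t + (F (0, c)).1 ∧ (F (t, c)).2 = (F (0, c)).2 := by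
    intro c hc
    obtain ⟨k', h1, h2, h3⟩ := line c hc
    have := const_of_small (φ := fun c => (F (1, c)).1 - (F (0, c)).1) (by fun_prop) hK' hK'
      (fun c hc => by
        obtain ⟨k', -, -, h3⟩ := line c hc
        have : (F (1, c)).1 - (F (0, c)).1 = k' := by rw [(h3 1).1]; ring
        show _ ∈ K
        rw [this]; exact intCast_mem K k') c c0
    simp only [(h3 1).1, (hk 1).1] at this
    have hkk : (k' : ℝ) = k := by linarith
    rw [hkk] at h2 h3
    exact ⟨h1, h2, h3⟩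
  have ha : ∀ c, (F (0, c)).1 = (F (0, c0)).1 := fun c =>
    const_of_small (φ := fun c => (F (0, c)).1) (by fun_prop) hK' hK'
      (fun c hc => (line2 c hc).1) c c0
  have hb : ∀ c, (F (0, c)).2 - k * c = (F (0, c0)).2 - k * c0 := fun c =>
    const_of_small (φ := fun c => (F (0, c)).2 - k * c) (by fun_prop) hK' hK'
      (fun c hc => (line2 c hc).2.1) c c0
  refine ⟨k, (F (0, c0)).1, (F (0, c0)).2 - k * c0, fun ⟨t, c⟩ => ?_⟩
  have hs : ∀ z : ℝ, #({z} : Set ℝ) < 𝔠 := fun z => by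
    simpa using one_lt_aleph0.trans aleph0_lt_continuum
  have h1 := const_of_small (φ := fun c => (F (t, c)).1) (by fun_prop) hK'
    (hs (k * t + (F (0, c0)).1)) (fun c hc => by
      show _ = _
      rw [((line2 c hc).2.2 t).1, ha c]) c c0
  have h2 := const_of_small (φ := fun c => (F (t, c)).2 - k * c) (by fun_prop) hK'
    (hs ((F (0, c0)).2 - k * c0)) (fun c hc => by
      show _ = _
      rw [((line2 c hc).2.2 t).2, hb c]) c c0
  simp only [(hk t).1, (hk t).2] at h1 h2
  ext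
  · exact h1
  · simp only; linarith

def C2 := {F : ℝ × ℝ → ℝ × ℝ // Continuous F}

instance : CoeFun C2 fun _ => ℝ × ℝ → ℝ × ℝ := ⟨fun F => F.1⟩

lemma card_C2 : #C2 ≤ 𝔠 := by
  have hd : Dense (range fun q : ℚ × ℚ => ((q.1 : ℝ), (q.2 : ℝ))) :=
    Rat.denseRange_cast.prodMap Rat.denseRange_cast
  have hi : Function.Injective fun (F : C2) (q : ℚ × ℚ) => F ((q.1 : ℝ), (q.2 : ℝ)) := by
    intro F G hFG
    refine Subtype.ext (Continuous.ext_on hd F.2 G.2 ?_)
    rintro _ ⟨q, rfl⟩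
    exact congrFun hFG q
  refine (mk_le_of_injective hi).trans ?_
  simp [mk_real]

def IsAff (F : C2) : Prop := ∃ (k : ℤ) (a b : ℝ), ∀ x, F x = (k * x.1 + a, k * x.2 + b)

lemma step (F : C2) (S : Set ℝ) : ∃ x : ℝ × ℝ, #S < 𝔠 → x.2 ∉ Subfield.closure S ∧
    (¬ IsAff F → ∀ k : ℤ, ¬ ((F x).1 - k * x.1 ∈ Subfield.closure S ∧
      (F x).2 - k * x.2 ∈ Subfield.closure S)) := by
  by_cases hS : #S < 𝔠
  swap
  · exact ⟨0, fun h => absurd h hS⟩
  have hK : #(Subfield.closure S) < 𝔠 :=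
    (Subfield.cardinalMk_closure_le_max S).trans_lt (max_lt hS aleph0_lt_continuum)
  by_cases hF : IsAff F
  · obtain ⟨c, hc⟩ := exists_not_mem (K := (Subfield.closure S : Set ℝ)) hK
    exact ⟨(0, c), fun _ => ⟨hc, fun h => absurd hF h⟩⟩
  · by_contra hcon
    push Not at hcon
    refine hF (affine F.2 _ hK fun x hx => ?_)
    obtain ⟨-, k, hk⟩ := (hcon x).2 hx
    exact ⟨k, hk⟩

def crd (F : C2) (x : ℝ × ℝ) : Set ℝ := {x.1, x.2, (F x).1, (F x).2}

lemma exists_p : ∃ (_ : LinearOrder C2) (p : C2 → ℝ × ℝ), ∀ F,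
    (p F).2 ∉ Subfield.closure (⋃ H ∈ Iio F, crd H (p H)) ∧
    (¬ IsAff F → ∀ k : ℤ, ¬ ((F (p F)).1 - k * (p F).1 ∈
      Subfield.closure (⋃ H ∈ Iio F, crd H (p H)) ∧
      (F (p F)).2 - k * (p F).2 ∈ Subfield.closure (⋃ H ∈ Iio F, crd H (p H)))) := by
  obtain ⟨r, wo, hr⟩ := exists_ord_eq C2
  classical
  letI : LinearOrder C2 := linearOrderOfSTO r
  choose st hst using step
  let p : C2 → ℝ × ℝ := wo.wf.fix fun F ih => st F (⋃ H : {H // r H F}, crd H (ih H H.2))
  have hp : ∀ F, p F = st F (⋃ H : {H // r H F}, crd H (p H)) := fun F => wo.wf.fix_eq _ F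
  refine ⟨inferInstance, p, fun F => ?_⟩
  have e : (⋃ H ∈ Iio F, crd H (p H)) = ⋃ H : {H // r H F}, crd H (p H) := by
    ext z
    simp only [mem_iUnion, mem_Iio, Subtype.exists]
    rfl
  rw [e]
  have hc : #(⋃ H : {H // r H F}, crd H (p H)) < 𝔠 := by
    refine (mk_iUnion_le_sum_mk).trans_lt ?_
    refine (sum_le_sum _ (fun _ => ℵ₀) fun H => ?_).trans_lt ?_
    · exact le_aleph0_iff_set_countable.2 (by unfold crd; exact (Set.toFinite _).countable)
    · rw [sum_const']
      refine mul_lt_of_lt aleph0_le_continuum ?_ aleph0_lt_continuum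
      exact (card_typein_lt F hr).trans_le card_C2
  have := hst F _ hc
  rwa [← hp F] at this

theorem result : ∃ G : AddSubgroup (ℝ × ℝ), Dense (G : Set (ℝ × ℝ)) ∧
    ∀ f : G → G, Function.Bijective f → (∀ u v : G, d1 (f u) (f v) ≤ d1 u v) →
      ∀ u v : G, d1 (f u) (f v) = d1 u v := by
  obtain ⟨lo, p, hp⟩ := exists_p
  set D : Set (ℝ × ℝ) := range fun q : ℚ × ℚ => ((q.1 : ℝ), (q.2 : ℝ)) with hD
  have hd : Dense D := Rat.denseRange_cast.prodMap Rat.denseRange_cast
  set G := AddSubgroup.closure (D ∪ range p) with hG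
  have hGd : Dense (G : Set (ℝ × ℝ)) :=
    hd.mono (subset_union_left.trans AddSubgroup.subset_closure)
  -- groups inside K x K
  have inK : ∀ (K : Subfield ℝ) (s : Set C2), (∀ H ∈ s, (p H).1 ∈ K ∧ (p H).2 ∈ K) →
      ∀ g ∈ AddSubgroup.closure (D ∪ p '' s), g.1 ∈ K ∧ g.2 ∈ K := by
    intro K s hs g hg
    induction hg using AddSubgroup.closure_induction with
    | mem x hx =>
      rcases hx with ⟨q, rfl⟩ | ⟨H, hH, rfl⟩
      · exact ⟨SubfieldClass.ratCast_mem K _, SubfieldClass.ratCast_mem K _⟩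
      · exact hs H hH
    | zero => exact ⟨K.zero_mem, K.zero_mem⟩
    | add x y _ _ hx hy => exact ⟨K.add_mem hx.1 hy.1, K.add_mem hx.2 hy.2⟩
    | neg x _ hx => exact ⟨K.neg_mem hx.1, K.neg_mem hx.2⟩
  have split : ∀ (s : Set C2) (a : C2) (y : ℝ × ℝ), y ∈ AddSubgroup.closure (D ∪ p '' insert a s) →
      ∃ k : ℤ, y - k • p a ∈ AddSubgroup.closure (D ∪ p '' s) := by
    intro s a y hy
    rw [image_insert_eq, union_insert, insert_eq, AddSubgroup.closure_union,
      AddSubgroup.mem_sup] at hy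
    obtain ⟨u, hu, g, hg, rfl⟩ := hy
    obtain ⟨k, rfl⟩ := AddSubgroup.mem_closure_singleton.1 hu
    exact ⟨k, by simpa using hg⟩
  have memc : ∀ {H F : C2}, H < F → ∀ z ∈ crd H (p H),
      z ∈ Subfield.closure (⋃ H ∈ Iio F, crd H (p H)) := fun {H F} h z hz =>
    Subfield.subset_closure (mem_biUnion (show H ∈ Iio F from h) hz)
  have kill : ∀ F : C2, ¬ IsAff F → F (p F) ∉ G := by
    intro F hF hy
    have fin : ∀ s : Finset C2, F (p F) ∉ AddSubgroup.closure (D ∪ p '' (Iic F ∪ s)) := by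
      intro s
      induction s using Finset.induction_on_max with
      | empty =>
        intro hy
        rw [Finset.coe_empty, union_empty, ← Iio_insert] at hy
        obtain ⟨k, hk⟩ := split _ _ _ hy
        have := inK _ _ (fun H hH => ⟨memc hH _ (by simp [crd]), memc hH _ (by simp [crd])⟩) _ hk
        exact (hp F).2 hF k (by simpa using this)
      | insert a s hs ih =>
        intro hy
        by_cases ha : a ≤ F
        · apply ih
          rwa [Finset.coe_insert, union_insert, insert_eq_of_mem (show a ∈ Iic F ∪ (s : Set C2) from Or.inl ha)] at hy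
        push Not at ha
        rw [Finset.coe_insert, union_insert] at hy
        obtain ⟨k, hk⟩ := split _ _ _ hy
        by_cases hk0 : k = 0
        · subst hk0; exact ih (by simpa using hk)
        have hlt : ∀ H ∈ Iic F ∪ (s : Set C2), H < a := by
          rintro H (hH | hH)
          · exact lt_of_le_of_lt hH ha
          · exact hs H hH
        have h2 := (inK _ _ (fun H hH => ⟨memc (hlt H hH) _ (by simp [crd]),
          memc (hlt H hH) _ (by simp [crd])⟩) _ hk).2
        have h3 := memc ha (F (p F)).2 (by simp [crd])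
        apply (hp a).1
        have h4 := Subfield.div_mem _ (Subfield.sub_mem _ h3 h2) (intCast_mem _ k)
        have h5 : (k : ℝ) ≠ 0 := by exact_mod_cast hk0
        convert h4 using 1
        rw [Prod.snd_sub, Prod.smul_snd, zsmul_eq_mul]
        field_simp
        ring
    have : ∀ y ∈ G, ∃ s : Finset C2, y ∈ AddSubgroup.closure (D ∪ p '' (Iic F ∪ s)) := by
      intro y hy
      induction hy using AddSubgroup.closure_induction with
      | mem x hx =>
        rcases hx with hx | ⟨H, rfl⟩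
        · exact ⟨∅, AddSubgroup.subset_closure (Or.inl hx)⟩
        · exact ⟨{H}, AddSubgroup.subset_closure (Or.inr ⟨H, by simp, rfl⟩)⟩
      | zero => exact ⟨∅, zero_mem _⟩
      | add x y _ _ hx hy =>
        obtain ⟨s, hs⟩ := hx
        obtain ⟨t, ht⟩ := hy
        refine ⟨s ∪ t, add_mem (AddSubgroup.closure_mono ?_ hs) (AddSubgroup.closure_mono ?_ ht)⟩
        · gcongr; simp
        · gcongr; simp
      | neg x _ hx => exact hx.imp fun s hs => neg_mem hs
    obtain ⟨s, hs⟩ := this _ hy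
    exact fin s hs
  refine ⟨G, hGd, fun f hf hne => ?_⟩
  classical
  let f' : ℝ × ℝ → ℝ × ℝ := fun x => if h : x ∈ G then f ⟨x, h⟩ else 0
  have hf' : ∀ u : G, f' u = f u := fun u => by simp [f', u.2]
  have dle : ∀ u v : ℝ × ℝ, d1 u v ≤ 2 * dist u v := fun u v => by
    have h1 : |u.1 - v.1| ≤ dist u v := by rw [← Real.dist_eq, Prod.dist_eq]; exact le_max_left _ _
    have h2 : |u.2 - v.2| ≤ dist u v := by rw [← Real.dist_eq, Prod.dist_eq]; exact le_max_right _ _
    unfold d1; linarith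
  have l1 : LipschitzOnWith 2 (fun x => (f' x).1) G := LipschitzOnWith.of_dist_le_mul
    fun x hx y hy => by
      have := hne ⟨x, hx⟩ ⟨y, hy⟩
      rw [← hf', ← hf'] at this
      have h2 := dle x y
      rw [Real.dist_eq]
      unfold d1 at this h2
      have := abs_nonneg ((f' x).2 - (f' y).2)
      push_cast; linarith
  have l2 : LipschitzOnWith 2 (fun x => (f' x).2) G := LipschitzOnWith.of_dist_le_mul
    fun x hx y hy => by
      have := hne ⟨x, hx⟩ ⟨y, hy⟩
      rw [← hf', ← hf'] at this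
      have h2 := dle x y
      rw [Real.dist_eq]
      unfold d1 at this h2
      have := abs_nonneg ((f' x).1 - (f' y).1)
      push_cast; linarith
  obtain ⟨g1, hg1, e1⟩ := l1.extend_real
  obtain ⟨g2, hg2, e2⟩ := l2.extend_real
  let F : C2 := ⟨fun x => (g1 x, g2 x), hg1.continuous.prodMk hg2.continuous⟩
  have hFf : ∀ u : G, F u = f u := fun u => by
    rw [← hf']
    exact Prod.ext (e1 u.2).symm (e2 u.2).symm
  have hA : IsAff F := by
    by_contra hF
    have hm : p F ∈ G := AddSubgroup.subset_closure (Or.inr ⟨F, rfl⟩)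
    apply kill F hF
    rw [hFf ⟨_, hm⟩]
    exact (f _).2
  obtain ⟨k, a, b, hk⟩ := hA
  have hd1 : ∀ u v : G, d1 (f u) (f v) = |(k : ℝ)| * d1 u v := fun u v => by
    rw [← hFf, ← hFf, hk, hk]
    simp only [d1, add_sub_add_right_eq_sub, ← mul_sub, abs_mul]
    ring
  have hm : ((1 : ℝ), (0 : ℝ)) ∈ G := AddSubgroup.subset_closure (Or.inl ⟨(1, 0), by simp⟩)
  have hle := hne ⟨_, hm⟩ 0
  rw [hd1] at hle
  have e10 : d1 ((⟨_, hm⟩ : G) : ℝ × ℝ) (0 : G) = 1 := by simp [d1]
  rw [e10, mul_one] at hle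
  have hk0 : k ≠ 0 := by
    rintro rfl
    have : f ⟨_, hm⟩ = f 0 := Subtype.ext (by rw [← hFf, ← hFf, hk, hk]; simp)
    have := congrArg (fun z : G => z.1.1) (hf.1 this)
    simp at this
  have hk1 : |(k : ℝ)| = 1 := by
    have : (1 : ℤ) ≤ |k| := Int.one_le_abs hk0
    have : (1 : ℝ) ≤ |(k : ℝ)| := by exact_mod_cast this
    linarith
  intro u v
  rw [hd1, hk1, one_mul]

end Pool.Agent.Results.MP_f81d0d_gt.Plastic
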